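import Pool.Agent.helper93.RG.ABE
import Pool.Agent.helper93.RG.PUS
import Pool.Agent.helper93.RG.COR
import Pool.Agent.helper93.RG.FIN
import Pool.Agent.helper33.RG.MAG
import Pool.Agent.helper33.RG.SUP
import Pool.Agent.helper33.RG.AFF
import Pool.Agent.helper33.RG.ASY
import Pool.Agent.helper49.RG.DIR
import Pool.Agent.helper77.RG.FLD
import Pool.Agent.helper39.RG.RTS
import Pool.Agent.helper27.RG.TOT
import Pool.Agent.helper27.RG.PRM
import Pool.Agent.helper27.RG.GDD
import Pool.Agent.helper37.RG.SWE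

/-!
Residual finiteness growth of free groups: elements outside the second derived subgroup.
-/

set_option autoImplicit false

namespace Pool.Agent.Results.MP_ea7dc1_al.OutsideSecondDerived

/-- There is C such that every element g of the free group F of rank 2 of word length at most n
(n at least 3) which is not in the second derived subgroup of F lies outside some normal subgroup
of finite index at most C n^(4/3) (log n)^7. -/
theorem result : ∃ C : ℝ, 0 < C ∧ ∀ n : ℕ, 3 ≤ n → ∀ g : FreeGroup (Fin 2),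
    g ∉ derivedSeries (FreeGroup (Fin 2)) 2 → (FreeGroup.toWord g).length ≤ n →
      ∃ N : Subgroup (FreeGroup (Fin 2)), N.Normal ∧ g ∉ N ∧ N.index ≠ 0 ∧
        (N.index : ℝ) ≤ C * (n : ℝ) ^ ((4 : ℝ) / 3) * Real.log n ^ 7 :=
  Pool.Agent.RG.FIN Pool.Agent.RG.ABE
    (Pool.Agent.RG.COR Pool.Agent.RG.MAG Pool.Agent.RG.SUP Pool.Agent.RG.AFF Pool.Agent.RG.DIR
      Pool.Agent.RG.PUS Pool.Agent.RG.FLD Pool.Agent.RG.RTS)
    (Pool.Agent.RG.ASY Pool.Agent.RG.PRM (Pool.Agent.RG.GDD Pool.Agent.RG.SWE) Pool.Agent.RG.TOT)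

end Pool.Agent.Results.MP_ea7dc1_al.OutsideSecondDerived
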